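import Pool.Agent.H.MP_677f70_an.A

set_option autoImplicit false

open Set Metric Filter Topology InnerProductSpace
open scoped Laplacian RealInnerProductSpace

namespace Pool.Agent.H.MP_770c06_an

abbrev E := EuclideanSpace ℝ (Fin 3)

/-- directional derivative along a coordinate axis -/
def Dv (f : E → ℝ) (x : E) (i : Fin 3) (a : ℝ) : Prop :=
  ∃ f' : E →L[ℝ] ℝ, HasFDerivAt f f' x ∧ f' (EuclideanSpace.single i 1) = a

section
variable {f g : E → ℝ} {x : E} {i : Fin 3} {a b : ℝ}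

lemma Dv.const (c : ℝ) : Dv (fun _ => c) x i 0 := ⟨0, hasFDerivAt_const _ _, rfl⟩

lemma Dv.coord (j : Fin 3) : Dv (fun y => y j) x i (if j = i then 1 else 0) :=
  ⟨EuclideanSpace.proj j, (EuclideanSpace.proj j : E →L[ℝ] ℝ).hasFDerivAt, by simp⟩

lemma Dv.add (h : Dv f x i a) (k : Dv g x i b) : Dv (fun y => f y + g y) x i (a + b) := by
  obtain ⟨f', h1, rfl⟩ := h
  obtain ⟨g', k1, rfl⟩ := k
  exact ⟨_, h1.add k1, rfl⟩

lemma Dv.sub (h : Dv f x i a) (k : Dv g x i b) : Dv (fun y => f y - g y) x i (a - b) := by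
  obtain ⟨f', h1, rfl⟩ := h
  obtain ⟨g', k1, rfl⟩ := k
  exact ⟨_, h1.sub k1, rfl⟩

lemma Dv.mul (h : Dv f x i a) (k : Dv g x i b) :
    Dv (fun y => f y * g y) x i (f x * b + g x * a) := by
  obtain ⟨f', h1, rfl⟩ := h
  obtain ⟨g', k1, rfl⟩ := k
  exact ⟨_, h1.mul k1, rfl⟩

lemma Dv.inv (h : Dv f x i a) (h0 : f x ≠ 0) : Dv (fun y => (f y)⁻¹) x i (-(f x ^ 2)⁻¹ * a) := by
  obtain ⟨f', h1, rfl⟩ := h
  exact ⟨_, (hasDerivAt_inv h0).comp_hasFDerivAt x h1, rfl⟩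

lemma Dv.log (h : Dv f x i a) (h0 : f x ≠ 0) :
    Dv (fun y => Real.log (f y)) x i ((f x)⁻¹ * a) := by
  obtain ⟨f', h1, rfl⟩ := h
  exact ⟨_, h1.log h0, rfl⟩

lemma Dv.norm {p : E} (h0 : x ≠ p) : Dv (fun y => ‖y - p‖) x i ((x i - p i) * ‖x - p‖⁻¹) := by
  have h1 : ‖x - p‖ ≠ 0 := norm_ne_zero_iff.2 (sub_ne_zero.2 h0)
  have h2 := (((hasFDerivAt_id x).sub_const p).norm_sq).sqrt (pow_ne_zero 2 h1)
  refine ⟨_, h2.congr_of_eventuallyEq (Eventually.of_forall fun y => by simp), ?_⟩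
  simp [EuclideanSpace.inner_single_right]
  field_simp

lemma Dv.congr (h : Dv f x i a) (e : a = b) : Dv f x i b := e ▸ h

end

lemma lap {f : E → ℝ} {U : Set E} (hU : IsOpen U) (hc : ∀ x ∈ U, ContDiffAt ℝ 2 f x)
    (g k : Fin 3 → E → ℝ) (h1 : ∀ x ∈ U, ∀ i, Dv f x i (g i x))
    (h2 : ∀ x ∈ U, ∀ i, Dv (g i) x i (k i x)) {x : E} (hx : x ∈ U) : Δ f x = ∑ i, k i x := by
  rw [laplacian_eq_iteratedFDeriv_orthonormalBasis _ (EuclideanSpace.basisFun (Fin 3) ℝ)]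
  refine Finset.sum_congr rfl fun i _ => ?_
  rw [MP_677f70_an.iter (hc x hx), EuclideanSpace.basisFun_apply]
  have e : (fun w => fderiv ℝ f w (EuclideanSpace.single i 1)) =ᶠ[𝓝 x] g i := by
    filter_upwards [hU.mem_nhds hx] with w hw
    obtain ⟨f', a1, a2⟩ := h1 w hw i
    rw [a1.fderiv, a2]
  obtain ⟨f', a1, a2⟩ := h2 x hx i
  rw [e.fderiv_eq, a1.fderiv, a2]

lemma harm_of {f : E → ℝ} {U : Set E} (hU : IsOpen U) (hc : ∀ x ∈ U, ContDiffAt ℝ 2 f x)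
    (h : ∀ x ∈ U, Δ f x = 0) : HarmonicOnNhd f U := fun x hx =>
  ⟨hc x hx, mem_of_superset (hU.mem_nhds hx) h⟩

lemma nsq (x : E) : ‖x‖ ^ 2 = x 0 ^ 2 + x 1 ^ 2 + x 2 ^ 2 := by
  rw [EuclideanSpace.real_norm_sq_eq, Fin.sum_univ_three]

lemma harm_inv (p : E) : HarmonicOnNhd (fun y : E => ‖y - p‖⁻¹) {p}ᶜ := by
  have hc : ∀ x ∈ ({p}ᶜ : Set E), ContDiffAt ℝ 2 (fun y : E => ‖y - p‖⁻¹) x := fun x hx =>
    ((contDiffAt_id.sub contDiffAt_const).norm ℝ (sub_ne_zero.2 hx)).inv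
      (norm_ne_zero_iff.2 (sub_ne_zero.2 hx))
  refine harm_of isOpen_compl_singleton hc fun x hx => ?_
  have h0 : ∀ x ∈ ({p}ᶜ : Set E), ‖x - p‖ ≠ 0 := fun x hx => norm_ne_zero_iff.2 (sub_ne_zero.2 hx)
  rw [lap isOpen_compl_singleton hc
    (fun i y => (p i - y i) * (‖y - p‖ * (‖y - p‖ * ‖y - p‖))⁻¹)
    (fun i y => 3 * (y i - p i) ^ 2 * (‖y - p‖ ^ 5)⁻¹ - (‖y - p‖ ^ 3)⁻¹)
    (fun x hx i => ((Dv.norm hx).inv (h0 x hx)).congr ?_)
    (fun x hx i => (((Dv.const _).sub (Dv.coord i)).mul (((Dv.norm hx).mul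
      ((Dv.norm hx).mul (Dv.norm hx))).inv (by simp [h0 x hx]))).congr ?_) hx]
  · have h1 := h0 x hx
    have h2 := nsq (x - p)
    simp only [PiLp.sub_apply] at h2
    rw [Fin.sum_univ_three]
    field_simp
    linear_combination (-3) * h2
  · have h1 := h0 x hx
    field_simp
    ring
  · have h1 := h0 x hx
    simp only [if_true]
    field_simp
    ring

lemma lap_sq (x : E) : Δ (fun y : E => ‖y‖ ^ 2) x = 6 := by
  have e : (fun y : E => ‖y‖ ^ 2) = fun y => y 0 * y 0 + y 1 * y 1 + y 2 * y 2 := by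
    funext y; rw [nsq]; ring
  rw [e, lap isOpen_univ (fun _ _ => by fun_prop) (fun i y => y i + y i) (fun _ _ => 2)
    (fun x _ i => ((((Dv.coord 0).mul (Dv.coord 0)).add ((Dv.coord 1).mul (Dv.coord 1))).add
      ((Dv.coord 2).mul (Dv.coord 2))).congr ?_)
    (fun x _ i => ((Dv.coord i).add (Dv.coord i)).congr ?_) (mem_univ x)]
  · simp; norm_num
  · fin_cases i <;> simp
  · simp; norm_num

lemma harm_aff (c : ℝ) (z : E) : HarmonicOnNhd (fun y : E => c + ⟪z, y⟫) univ := by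
  have e : (fun y : E => c + ⟪z, y⟫) = fun y => c + (z 0 * y 0 + z 1 * y 1 + z 2 * y 2) := by
    funext y
    simp [PiLp.inner_apply, Fin.sum_univ_three, mul_comm]
  rw [e]
  refine harm_of isOpen_univ (fun _ _ => by fun_prop) fun x _ => ?_
  rw [lap isOpen_univ (fun _ _ => by fun_prop) (fun i _ => z i) (fun _ _ => 0)
    (fun x _ i => ((Dv.const c).add ((((Dv.const _).mul (Dv.coord 0)).add
      ((Dv.const _).mul (Dv.coord 1))).add ((Dv.const _).mul (Dv.coord 2)))).congr ?_)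
    (fun x _ i => Dv.const _) (mem_univ x)]
  · simp
  · fin_cases i <;> simp

noncomputable def q (x : E) : ℝ := ‖x‖ - x 0

lemma q_cont : Continuous q := by unfold q; fun_prop

lemma q_open : IsOpen {x : E | 0 < q x} := isOpen_lt continuous_const q_cont

noncomputable def F (x : E) : ℝ := q x + (x 0 + 1) * (Real.log (q x) - Real.log 300)

lemma harm_F : HarmonicOnNhd F {x | 0 < q x} := by
  have h0 : ∀ x ∈ {x : E | 0 < q x}, x ≠ 0 := fun x hx h => by simp [h, q] at hx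
  have cq : ∀ x ∈ {x : E | 0 < q x}, ContDiffAt ℝ 2 q x := fun x hx =>
    (contDiffAt_id.norm ℝ (h0 x hx)).sub (by fun_prop)
  have hc : ∀ x ∈ {x : E | 0 < q x}, ContDiffAt ℝ 2 F x := fun x hx =>
    (cq x hx).add (ContDiffAt.mul (by fun_prop) (((cq x hx).log (ne_of_gt hx)).sub contDiffAt_const))
  have dN : ∀ x ∈ {x : E | 0 < q x}, ∀ i, Dv (fun y => ‖y‖) x i (x i * ‖x‖⁻¹) := fun x hx i => by
    simpa using Dv.norm (i := i) (h0 x hx)
  have dq : ∀ x ∈ {x : E | 0 < q x}, ∀ i,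
      Dv q x i (x i * ‖x‖⁻¹ - if 0 = i then 1 else 0) := fun x hx i => (dN x hx i).sub (Dv.coord 0)
  have dd : ∀ x ∈ {x : E | 0 < q x}, ∀ i, Dv (fun x => x i * ‖x‖⁻¹ - if 0 = i then 1 else 0) x i
      (‖x‖⁻¹ - x i ^ 2 * (‖x‖ ^ 3)⁻¹) := fun x hx i =>
    (((Dv.coord i).mul ((dN x hx i).inv (norm_ne_zero_iff.2 (h0 x hx)))).sub (Dv.const _)).congr
      (by have := norm_ne_zero_iff.2 (h0 x hx); simp only [if_true]; field_simp; ring)
  refine harm_of q_open hc fun x hx => ?_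
  rw [lap q_open hc _ _ (fun x hx i => (dq x hx i).add (((Dv.coord 0).add (Dv.const 1)).mul
    (((dq x hx i).log (ne_of_gt hx)).sub (Dv.const _))))
    (fun x hx i => (dd x hx i).add ((((Dv.coord 0).add (Dv.const 1)).mul
      ((((dq x hx i).inv (ne_of_gt hx)).mul (dd x hx i)).sub (Dv.const _))).add
      ((((dq x hx i).log (ne_of_gt hx)).sub (Dv.const _)).mul (Dv.const _)))) hx]
  have h1 := norm_ne_zero_iff.2 (h0 x hx)
  have h2 := nsq x
  have h3 : q x ≠ 0 := ne_of_gt hx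
  have h4 : x 0 = ‖x‖ - q x := by simp [q]
  rw [Fin.sum_univ_three]
  simp only [if_true, Fin.isValue, zero_ne_one, if_false, Fin.reduceEq]
  rw [h4] at h2 ⊢
  generalize q x = s at *
  generalize ‖x‖ = n at *
  field_simp
  linear_combination (s ^ 2 + (n - s + 1) * s + (n - s + 1) * n) * h2

/-- a minimum principle -/
lemma minp {Ω : Set E} (hΩ : IsOpen Ω) (hb : Bornology.IsBounded Ω) {v : E → EReal} {w : E → ℝ}
    (hv : LowerSemicontinuousOn v Ω) (hw : ContinuousOn w Ω) (hbot : ∀ x ∈ Ω, v x ≠ ⊥)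
    (loc : ∀ z ∈ Ω, ∀ ε > 0, ∀ m : ℝ, v z = (w z + m + ε * ‖z‖ ^ 2 : ℝ) →
      (∀ x ∈ Ω, ((w x + m + ε * ‖x‖ ^ 2 : ℝ) : EReal) ≤ v x) → False)
    (bd : ∀ b ∈ frontier Ω, ∀ η > 0, ∀ᶠ x in 𝓝[Ω] b, ((w x - η : ℝ) : EReal) ≤ v x) :
    ∀ x ∈ Ω, (w x : EReal) ≤ v x := by
  intro x1 h1
  by_contra hn
  push Not at hn
  obtain ⟨a, ha⟩ : ∃ a : ℝ, v x1 = a := ⟨_, (EReal.coe_toReal hn.ne_top (hbot x1 h1)).symm⟩
  rw [ha, EReal.coe_lt_coe_iff] at hn
  obtain ⟨ρ, ρ0, hρ⟩ := hb.subset_ball_lt 0 0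
  set γ := (w x1 - a) / 3 with hγ
  have γ0 : 0 < γ := by linarith
  have add : ∀ {c : E → ℝ}, ContinuousOn c Ω →
      LowerSemicontinuousOn (fun x => v x + (c x : EReal)) Ω := fun {c} hc =>
    hv.add' (continuous_coe_real_ereal.comp_continuousOn hc).lowerSemicontinuousOn
      fun x _ => EReal.continuousAt_add (Or.inr (EReal.coe_ne_bot _)) (Or.inr (EReal.coe_ne_top _))
  have iff : ∀ (y : EReal) (c d : ℝ), y + (c : EReal) ≤ d ↔ y ≤ ((d - c : ℝ) : EReal) := by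
    intro y c d
    induction y with
    | bot => simp [-EReal.coe_sub]
    | top => simp [-EReal.coe_sub]
    | coe y => norm_cast; constructor <;> intro h <;> linarith
  have iff2 : ∀ (y : EReal) (c d : ℝ), (d : EReal) ≤ y + (c : EReal) ↔
      ((d - c : ℝ) : EReal) ≤ y := by
    intro y c d
    induction y with
    | bot => simp [-EReal.coe_sub]
    | top => simp [-EReal.coe_sub]
    | coe y => norm_cast; constructor <;> intro h <;> linarith
  let K := {x ∈ Ω | v x + ((-w x : ℝ) : EReal) ≤ ((-γ : ℝ) : EReal)}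
  have hK : IsCompact K := by
    refine isCompact_of_isClosed_isBounded (isClosed_of_closure_subset fun b hb => ?_)
      (hb.subset fun x hx => hx.1)
    have fr : ∃ᶠ x in 𝓝[Ω] b, x ∈ K := by
      rw [frequently_nhdsWithin_iff]
      exact (mem_closure_iff_frequently.1 hb).mono fun x hx => ⟨hx, hx.1⟩
    by_cases h : b ∈ Ω
    · refine ⟨h, not_lt.1 fun h2 => ?_⟩
      obtain ⟨x, x1, x2⟩ := (fr.and_eventually (add hw.neg b h _ h2)).exists
      exact not_lt.2 x1.2 x2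
    · have hf : b ∈ frontier Ω := by
        rw [hΩ.frontier_eq]
        exact ⟨closure_mono (fun x hx => hx.1) hb, h⟩
      obtain ⟨x, x1, x2⟩ := (fr.and_eventually (bd b hf (γ / 2) (by positivity))).exists
      have := x2.trans ((iff _ _ _).1 x1.2)
      rw [EReal.coe_le_coe_iff] at this
      linarith
  have k1 : x1 ∈ K := ⟨h1, by rw [ha]; norm_cast; linarith⟩
  obtain ⟨z, hz, hm⟩ := ((add (c := fun x => -w x - γ / ρ ^ 2 * ‖x‖ ^ 2)
    (hw.neg.sub (by fun_prop))).mono fun x hx => hx.1).exists_isMinOn ⟨x1, k1⟩ hK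
  obtain ⟨c, hc⟩ : ∃ c : ℝ, v z = c := ⟨_, (EReal.coe_toReal
    (((iff _ _ _).1 hz.2).trans_lt (EReal.coe_lt_top _)).ne (hbot z hz.1)).symm⟩
  have h2 := isMinOn_iff.1 hm x1 k1
  simp only [ha, hc] at h2
  norm_cast at h2
  have ε0 : 0 < γ / ρ ^ 2 := by positivity
  refine loc z hz.1 _ ε0 (c + (-w z - γ / ρ ^ 2 * ‖z‖ ^ 2)) (by rw [hc]; congr 1; ring)
    fun x hx => ?_
  by_cases h : x ∈ K
  · have h3 := isMinOn_iff.1 hm x h
    simp only [hc] at h3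
    rw [← EReal.coe_add, iff2] at h3
    refine le_of_eq_of_le ?_ h3
    congr 1; ring
  · have h3 := (iff2 _ _ _).1 (not_le.1 fun h' => h ⟨hx, h'⟩).le
    refine le_trans (EReal.coe_le_coe_iff.2 ?_) h3
    have h4 : γ / ρ ^ 2 * ‖x‖ ^ 2 ≤ γ := by
      have := (mem_ball_zero_iff.1 (hρ hx)).le
      rw [div_mul_eq_mul_div, div_le_iff₀ (by positivity)]
      gcongr
    have h5 : 0 ≤ γ / ρ ^ 2 * ‖x1‖ ^ 2 := by positivity
    linarith

/-- no touching from below by a strictly subharmonic function -/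
lemma notouch {w : E → ℝ} {z : E} (hw : HarmonicAt w z) {ε : ℝ} (hε : 0 < ε)
    (h : ∀ᶠ x in 𝓝 z, w x + ε * ‖x‖ ^ 2 ≤ w z + ε * ‖z‖ ^ 2) : False := by
  have c : ContDiffAt ℝ 2 (fun y : E => ‖y‖ ^ 2) z := (contDiff_norm_sq ℝ).contDiffAt
  have h1 := MP_677f70_an.locmax (u := w + ε • fun y : E => ‖y‖ ^ 2) (hw.1.add (c.const_smul ε)) h
  have c2 : ContDiffAt ℝ 2 (ε • fun y : E => ‖y‖ ^ 2) z := c.const_smul ε
  rw [hw.1.laplacian_add c2, laplacian_smul ε c, lap_sq, hw.2.eq_of_nhds] at h1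
  simp at h1
  linarith

end Pool.Agent.H.MP_770c06_an
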