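import Pool.Agent.H.MP_770c06_an.A

set_option autoImplicit false

open Set Metric Filter Topology InnerProductSpace
open scoped RealInnerProductSpace

namespace Pool.Agent.H.MP_770c06_an

noncomputable def p : E := !₂[5, 12, 0]

noncomputable def e0 : E := EuclideanSpace.single 0 1

noncomputable def ℓ (x : E) : ℝ := Real.log 300 - Real.log (q x)

noncomputable def h (x : E) : ℝ := 1 / 50 - 1 / 10 ^ 17 * F x

noncomputable def u (x : E) : ℝ := ‖x - p‖⁻¹ - h x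

def D : Set E := {x | ‖x - p‖ < 100 ∧ 0 < q x ∧ ‖x - p‖ * h x < 1}

lemma F_eq (x : E) : F x = q x - (x 0 + 1) * ℓ x := by unfold F ℓ; ring

lemma np : ‖p‖ = 13 := by
  have := nsq p
  simp [p] at this
  refine (pow_left_inj₀ (norm_nonneg _) (by norm_num) two_ne_zero).1 ?_
  simp only [p]
  rw [this]; norm_num

lemma rsq (x : E) : ‖x - p‖ ^ 2 = (x 0 - 5) ^ 2 + (x 1 - 12) ^ 2 + x 2 ^ 2 := by
  rw [nsq]; simp [p]

lemma n_le (x : E) : ‖x‖ ≤ ‖x - p‖ + 13 := by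
  rw [← np]; simpa using norm_add_le (x - p) p

lemma le_n (x : E) : ‖x - p‖ ≤ ‖x‖ + 13 := by
  rw [← np]; exact norm_sub_le x p

lemma c0 (x : E) : |x 0| ≤ ‖x‖ := by simpa using PiLp.norm_apply_le x 0

lemma q_nonneg (x : E) : 0 ≤ q x := sub_nonneg.2 ((le_abs_self _).trans (c0 x))

lemma q_le (x : E) : q x ≤ 2 * ‖x‖ := by
  have := (abs_le.1 (c0 x)).1
  unfold q; linarith

lemma q_mul (x : E) : q x * (‖x‖ + x 0) = x 1 ^ 2 + x 2 ^ 2 := by
  have := nsq x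
  unfold q; linarith

lemma ℓ_nonneg {x : E} (h0 : 0 < q x) (hr : ‖x - p‖ ≤ 100) : 0 ≤ ℓ x :=
  sub_nonneg.2 (Real.log_le_log h0 (by linarith [q_le x, n_le x]))

lemma ℓ_le {x : E} {a : ℝ} (ha : 0 < a) (h0 : a ≤ q x) : ℓ x ≤ 300 / a := by
  have h1 := ha.trans_le h0
  rw [ℓ, ← Real.log_div (by norm_num) h1.ne']
  refine (Real.log_le_self (by positivity)).trans ?_
  gcongr

lemma q_e0 (y : E) {s : ℝ} (hs : 0 ≤ s) : q (y + s • e0) ≤ q y := by
  have := norm_add_le y (s • e0)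
  rw [norm_smul, Real.norm_of_nonneg hs, show ‖e0‖ = 1 by simp [e0]] at this
  simp only [q, e0] at this ⊢
  simp
  linarith

lemma F_le {x : E} (h0 : 0 < q x) (hr : ‖x - p‖ ≤ 100) : F x ≤ 40000 := by
  have h1 := q_le x
  have h2 := n_le x
  have h3 := ℓ_nonneg h0 hr
  rw [F_eq]
  by_cases h : 0 ≤ x 0 + 1
  · nlinarith
  · have h4 : 1 ≤ q x := by unfold q; linarith [norm_nonneg x]
    have h5 := ℓ_le one_pos h4
    have h6 := (abs_le.1 (c0 x)).1
    nlinarith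

lemma harm_h : HarmonicOnNhd h {x | 0 < q x} :=
  (harmonicOnNhd_const (1 / 50 : ℝ)).sub (harm_F.const_smul (c := (1 / 10 ^ 17 : ℝ)))

lemma D_open : IsOpen D := by
  have h1 : IsOpen {x : E | ‖x - p‖ < 100} := isOpen_lt (by fun_prop) continuous_const
  have h2 : IsOpen ({x : E | 0 < q x} ∩ (fun x => ‖x - p‖ * h x) ⁻¹' Iio 1) :=
    (ContinuousOn.mul (by fun_prop) harm_h.continuousOn).isOpen_inter_preimage q_open isOpen_Iio
  exact h1.inter h2

lemma D_bdd : Bornology.IsBounded D :=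
  (isBounded_ball (x := p) (r := 100)).subset fun _ hx => mem_ball_iff_norm.2 hx.1

lemma p_mem : p ∈ D := ⟨by simp, by rw [q, np]; simp [p]; norm_num, by simp⟩

lemma u_pos {x : E} (hx : x ≠ p) : 0 < u x ↔ ‖x - p‖ * h x < 1 := by
  have := norm_pos_iff.2 (sub_ne_zero.2 hx)
  rw [u, sub_pos, ← one_div, lt_div_iff₀' this]

lemma harm_u : HarmonicOnNhd u ({x | 0 < q x} \ {p}) :=
  ((harm_inv p).mono fun _ hx => hx.2).sub (harm_h.mono fun _ hx => hx.1)

lemma bd_D {b : E} (hb : b ∈ closure D) (hn : b ∉ D) {η : ℝ} (hη : 0 < η) :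
    ∀ᶠ x in 𝓝[D] b, u x ≤ η := by
  have hp : b ≠ p := fun e => hn (e ▸ p_mem)
  rcases (q_nonneg b).lt_or_eq with h0 | h0
  · have h1 : ‖b - p‖ ≤ 100 := closure_minimal (t := {x : E | ‖x - p‖ ≤ 100})
      (fun x hx => hx.1.le) (isClosed_le (by fun_prop) continuous_const) hb
    have h2 : u b ≤ 0 := by
      rcases h1.lt_or_eq with h1 | h1
      · exact not_lt.1 fun h3 => hn ⟨h1, h0, (u_pos hp).1 h3⟩
      · have := F_le h0 h1.le
        rw [u, h, h1]
        linarith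
    exact ((harm_u b ⟨h0, hp⟩).1.continuousAt.eventually
      (gt_mem_nhds (h2.trans_lt hη))).filter_mono nhdsWithin_le_nhds |>.mono fun x hx => hx.le
  · have h1 : 0 ≤ b 0 := by unfold q at h0; linarith [norm_nonneg b]
    have h2 : 1 < ‖b - p‖ := by
      have h3 := q_mul b
      have h4 := rsq b
      rw [← h0, zero_mul] at h3
      have h5 : b 1 = 0 := by nlinarith [sq_nonneg (b 1), sq_nonneg (b 2)]
      rw [h5] at h4
      nlinarith [norm_nonneg (b - p), sq_nonneg (b 0 - 5), sq_nonneg (b 2)]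
    have t1 : ∀ᶠ x in 𝓝 b, -1 / 2 < x 0 :=
      (by fun_prop : Continuous fun x : E => x 0).continuousAt.eventually
        (lt_mem_nhds (by linarith))
    have t2 : ∀ᶠ x in 𝓝 b, 1 < ‖x - p‖ :=
      (by fun_prop : Continuous fun x : E => ‖x - p‖).continuousAt.eventually (lt_mem_nhds h2)
    have t3 : ∀ᶠ x in 𝓝 b, q x < 300 * Real.exp (-(4 * 10 ^ 17)) :=
      q_cont.continuousAt.eventually (gt_mem_nhds (by rw [← h0]; positivity))
    filter_upwards [mem_nhdsWithin_of_mem_nhds t1, mem_nhdsWithin_of_mem_nhds t2,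
      mem_nhdsWithin_of_mem_nhds t3, self_mem_nhdsWithin] with x x1 x2 x3 hx
    have h3 := Real.log_le_log hx.2.1 x3.le
    rw [Real.log_mul (by norm_num) (by positivity), Real.log_exp] at h3
    have h4 : 4 * 10 ^ 17 ≤ ℓ x := by unfold ℓ; linarith
    have h5 := inv_le_one_of_one_le₀ x2.le
    have h6 := q_le x
    have h7 := n_le x
    have h8 := hx.1
    rw [u, h, F_eq]
    nlinarith

lemma ray {y : E} (hy : y ≠ p) : ∃ v : E, ‖v‖ = 1 ∧ ∀ s : ℝ, 0 ≤ s →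
    ‖y + s • v - p‖ = ‖y - p‖ + s ∧ (y 0 < 5 → (y + s • v) 0 ≤ y 0) := by
  have h0 := norm_pos_iff.2 (sub_ne_zero.2 hy)
  refine ⟨‖y - p‖⁻¹ • (y - p), norm_smul_inv_norm (sub_ne_zero.2 hy), fun s hs => ⟨?_, fun h => ?_⟩⟩
  · rw [show y + s • ‖y - p‖⁻¹ • (y - p) - p = (1 + s * ‖y - p‖⁻¹) • (y - p) by module, norm_smul,
      Real.norm_of_nonneg (by positivity)]
    field_simp
  · have : s * (‖y - p‖⁻¹ * (y 0 - 5)) ≤ 0 :=
      mul_nonpos_of_nonneg_of_nonpos hs (mul_nonpos_of_nonneg_of_nonpos (by positivity) (by linarith))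
    simpa [p] using this

lemma log_lip {a b : ℝ} (ha : 2 ≤ a) (hb : 2 ≤ b) : |Real.log a - Real.log b| ≤ |a - b| / 2 := by
  have key : ∀ {a b : ℝ}, 2 ≤ a → 2 ≤ b → Real.log a - Real.log b ≤ |a - b| / 2 := fun {a b} ha hb => by
    rw [← Real.log_div (by linarith) (by linarith)]
    refine (Real.log_le_sub_one_of_pos (by positivity)).trans ?_
    rw [div_sub_one (by linarith)]
    calc _ ≤ |a - b| / b := by gcongr; exact le_abs_self _
      _ ≤ _ := by gcongr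
  rw [abs_le]
  constructor
  · have := key hb ha
    rw [abs_sub_comm] at this
    linarith
  · exact key ha hb

lemma F_lip {x y : E} (hx : 2 ≤ q x) (hy : 2 ≤ q y) (rx : ‖x - p‖ ≤ 100) (ry : ‖y - p‖ ≤ 100) :
    F x ≤ F y + 500 * ‖x - y‖ := by
  have h1 := abs_le.1 (c0 (x - y))
  have h2 := abs_le.1 (abs_norm_sub_norm_le x y)
  rw [PiLp.sub_apply] at h1
  have h3 : |q x - q y| ≤ 2 * ‖x - y‖ := by
    unfold q; rw [abs_le]; constructor <;> linarith
  have h4 : |ℓ x - ℓ y| ≤ ‖x - y‖ := by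
    have := log_lip hy hx
    rw [abs_sub_comm (q y)] at this
    rw [show ℓ x - ℓ y = Real.log (q y) - Real.log (q x) by unfold ℓ; ring]
    linarith
  have h5 := ℓ_le two_pos hx
  have h6 := ℓ_nonneg (two_pos.trans_le hx) rx
  have h7 : |y 0 + 1| ≤ 114 := by
    have := abs_le.1 (c0 y)
    rw [abs_le]; constructor <;> linarith [n_le y]
  have h8 : |(y 0 + 1) * (ℓ x - ℓ y)| ≤ 114 * ‖x - y‖ := by rw [abs_mul]; gcongr
  have h9 := abs_le.1 h8
  have h10 := abs_le.1 h3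
  rw [F_eq, F_eq]
  nlinarith [norm_nonneg (x - y)]

lemma acc (y : E) (hy : y ∉ D) : ∃ v : E, ‖v‖ = 1 ∧ ∀ s : ℝ, 0 ≤ s → y + s • v ∉ D := by
  have hp : y ≠ p := fun e => hy (e ▸ p_mem)
  have r0 := norm_pos_iff.2 (sub_ne_zero.2 hp)
  obtain ⟨v, v1, hv⟩ := ray hp
  have n0 : ‖e0‖ = 1 := by simp [e0]
  by_cases h1 : 100 ≤ ‖y - p‖
  · exact ⟨v, v1, fun s hs hx => by linarith [hx.1, (hv s hs).1]⟩
  by_cases h2 : q y ≤ 0
  · exact ⟨e0, n0, fun s hs hx => by linarith [hx.2.1, q_e0 y hs]⟩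
  push Not at h1 h2
  have h3 : 1 ≤ ‖y - p‖ * h y := not_lt.1 fun h3 => hy ⟨h1, h2, h3⟩
  have h4 : 1 / 100 ≤ h y := by
    by_contra hn
    nlinarith
  have l0 := ℓ_nonneg h2 h1.le
  have a0 : ∀ s : ℝ, (y + s • e0) 0 = y 0 + s := fun s => by simp [e0]
  have a1 : ∀ s : ℝ, ‖y + s • e0 - p‖ ^ 2 = (y 0 + s - 5) ^ 2 + (y 1 - 12) ^ 2 + y 2 ^ 2 :=
    fun s => by rw [rsq]; simp [e0]
  have a2 : ∀ s : ℝ, 0 ≤ s → y + s • e0 ∈ D → ℓ y ≤ ℓ (y + s • e0) := fun s hs hx =>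
    sub_le_sub_left (Real.log_le_log hx.2.1 (q_e0 y hs)) _
  by_cases h5 : 5 ≤ y 0
  · refine ⟨e0, n0, fun s hs hx => ?_⟩
    have b1 : ‖y - p‖ ≤ ‖y + s • e0 - p‖ :=
      (pow_le_pow_iff_left₀ (norm_nonneg _) (norm_nonneg _) two_ne_zero).1
        (by rw [a1, rsq]; nlinarith)
    have b2 : F (y + s • e0) ≤ F y := by
      rw [F_eq, F_eq, a0]
      nlinarith [q_e0 y hs, a2 s hs hx]
    have b3 : h y ≤ h (y + s • e0) := by unfold h; linarith
    exact absurd hx.2.2 (not_lt.2 (h3.trans (by gcongr)))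
  push Not at h5
  by_cases h6 : 20 ≤ ‖y - p‖
  · refine ⟨v, v1, fun s hs hx => ?_⟩
    obtain ⟨b1, b2⟩ := hv s hs
    have b3 := b2 h5
    have b4 := F_lip (x := y + s • v) (y := y) (by unfold q; linarith [le_n (y + s • v)])
      (by unfold q; linarith [le_n y]) hx.1.le h1.le
    rw [add_sub_cancel_left, norm_smul, v1, Real.norm_of_nonneg hs, mul_one] at b4
    have b5 : h y - 500 / 10 ^ 17 * s ≤ h (y + s • v) := by unfold h; linarith
    have b6 := hx.1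
    have b7 := hx.2.2
    rw [b1] at b6 b7
    have b8 : (‖y - p‖ + s) * (h y - 500 / 10 ^ 17 * s) ≤ (‖y - p‖ + s) * h (y + s • v) := by
      gcongr
    nlinarith
  push Not at h6
  refine ⟨e0, n0, fun s hs hx => ?_⟩
  set ι := ‖y - p‖⁻¹ with hι
  have i1 : ‖y - p‖ * ι = 1 := mul_inv_cancel₀ r0.ne'
  have i2 : 1 / 20 ≤ ι := by rw [hι, one_div]; gcongr
  have i3 : ι ≤ h y := by
    by_contra hn
    nlinarith
  rw [h, F_eq] at i3
  have q0 := q_nonneg y
  have b1 : 0 < y 0 + 1 := by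
    by_contra hn
    nlinarith
  have b2 : (ι - 1 / 50) / 6 ≤ 1 / 10 ^ 17 * ℓ y := by nlinarith
  have b3 : q y ≤ 1 / 100 := by
    by_contra hn
    have := ℓ_le (a := 1 / 100) (by norm_num) (not_le.1 hn).le
    linarith
  have b4 : y 1 ^ 2 ≤ 1 := by
    have := q_mul y
    have := (abs_le.1 (c0 y)).2
    nlinarith [n_le y, sq_nonneg (y 2), norm_nonneg y]
  have b5 : 11 ≤ ‖y + s • e0 - p‖ :=
    (pow_le_pow_iff_left₀ (by norm_num) (norm_nonneg _) two_ne_zero).1 (by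
      rw [a1]
      nlinarith [sq_nonneg (y 0 + s - 5), sq_nonneg (y 2), abs_le.1 (sq_le_one_iff_abs_le_one _ |>.1 b4)])
  have b6 : ‖y - p‖ ≤ ‖y + s • e0 - p‖ + s := by
    have := norm_sub_le (y + s • e0 - p) (s • e0)
    rwa [norm_smul, n0, Real.norm_of_nonneg hs, mul_one, show y + s • e0 - p - s • e0 = y - p by
      abel] at this
  have b7 : ι + s * ((ι - 1 / 50) / 6) ≤ h (y + s • e0) := by
    have := mul_le_mul_of_nonneg_left (a2 s hs hx) (by linarith : 0 ≤ y 0 + s + 1)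
    have := mul_le_mul_of_nonneg_left b2 hs
    rw [h, F_eq, a0]
    nlinarith [q_e0 y hs]
  have b8 := hx.2.2
  generalize ‖y + s • e0 - p‖ = r at *
  have b9 : r * (ι + s * ((ι - 1 / 50) / 6)) ≤ r * h (y + s • e0) := by gcongr
  have c1 : (‖y - p‖ - s) * ι ≤ r * ι := by gcongr; linarith
  have c2 : 11 * (s * ((ι - 1 / 50) / 6)) ≤ r * (s * ((ι - 1 / 50) / 6)) := by
    gcongr; nlinarith
  nlinarith

noncomputable def θ : ℝ := 300 * Real.exp (-10 ^ 13)

lemma H_pos : 0 < θ := by unfold θ; positivity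

lemma H_le : θ ≤ 1 / 10 ^ 7 := by
  have := Real.add_one_le_exp (10 ^ 13)
  rw [θ, Real.exp_neg, ← div_eq_mul_inv, div_le_iff₀ (Real.exp_pos _)]
  generalize Real.exp (10 ^ 13) = a at *
  norm_num at this ⊢
  linarith

noncomputable def Y : E := !₂[0, 0, θ]

noncomputable def t : ℝ := 1 / 13 - 1 / 50 - 1 / 20000

lemma nY : ‖Y‖ = θ := by
  refine (pow_left_inj₀ (norm_nonneg _) H_pos.le two_ne_zero).1 ?_
  rw [nsq]; simp [Y]

lemma Y_ne : Y ≠ p := fun e => by simpa [Y, p] using congrArg (fun x : E => x 0) e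

lemma uY : u Y ≤ t := by
  have h1 : 13 ≤ ‖Y - p‖ := (pow_le_pow_iff_left₀ (by norm_num) (norm_nonneg _) two_ne_zero).1 (by
    rw [rsq]; simp [Y]; nlinarith [sq_nonneg θ])
  have h2 : ‖Y - p‖⁻¹ ≤ 13⁻¹ := by gcongr
  have h3 : q Y = θ := by rw [q, nY]; simp [Y]
  have h4 : ℓ Y = 10 ^ 13 := by
    rw [ℓ, h3, θ, Real.log_mul (by norm_num) (by positivity), Real.log_exp]; ring
  rw [u, h, F_eq, h3, h4, t, show Y 0 = 0 by simp [Y]]
  linarith [H_le]

lemma good {x : E} {a : ℝ} (h0 : 0 < q x) (hr : ‖x - p‖ ≤ a) (ha : a ≤ 14) (hx : x 1 ≠ 12)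
    (hl : 1 / 13 - 1 / 20000 + 1 / 10 ^ 17 * ((x 0 + 1) * ℓ x) < a⁻¹) :
    x ∈ D ∧ x ≠ p ∧ t < u x := by
  have hp : x ≠ p := fun e => hx (by simp [e, p])
  have h1 : a⁻¹ ≤ ‖x - p‖⁻¹ := inv_anti₀ (norm_pos_iff.2 (sub_ne_zero.2 hp)) hr
  have h2 : t < u x := by rw [u, h, F_eq, t]; linarith
  exact ⟨⟨by linarith, h0, (u_pos hp).1 (lt_trans (by norm_num [t]) h2)⟩, hp, h2⟩

lemma gate {x : E} (h1 : 1 ≤ x 0) (h2 : x 0 ≤ 2) (h3 : |x 1| ≤ x 0 / 10) (h4 : |x 2| ≤ 1 / 4)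
    (h5 : θ / 3 ≤ |x 2|) : x ∈ D ∧ x ≠ p ∧ t < u x := by
  have H0 := H_pos
  obtain ⟨a1, a2⟩ := abs_le.1 h3
  have a3 : x 2 ^ 2 ≤ (1 / 4) ^ 2 := by rw [← sq_abs]; gcongr
  have a4 : (θ / 3) ^ 2 ≤ x 2 ^ 2 := by rw [← sq_abs (x 2)]; gcongr
  have a5 : ‖x‖ ≤ 3 := (pow_le_pow_iff_left₀ (norm_nonneg _) (by norm_num) two_ne_zero).1 (by
    rw [nsq]; nlinarith)
  have a6 : θ ^ 2 / 300 ≤ q x := by
    nlinarith [q_mul x, q_nonneg x, sq_nonneg (x 1), sq_nonneg θ]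
  have a7 : 0 < θ ^ 2 / 300 := by positivity
  have a8 : ℓ x ≤ 2 * 10 ^ 13 := by
    have := Real.log_le_log a7 a6
    rw [Real.log_div (by positivity) (by norm_num), Real.log_pow, θ,
      Real.log_mul (by norm_num) (by positivity), Real.log_exp] at this
    unfold ℓ
    push_cast at this
    linarith
  have a9 : ‖x - p‖ ≤ 12.8 := (pow_le_pow_iff_left₀ (norm_nonneg _) (by norm_num) two_ne_zero).1 (by
    rw [rsq]; nlinarith)
  have b1 := ℓ_nonneg (a7.trans_le a6) (by linarith)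
  refine good (a7.trans_le a6) a9 (by norm_num) (by linarith) ?_
  have : (x 0 + 1) * ℓ x ≤ 3 * (2 * 10 ^ 13) := by gcongr; linarith
  norm_num at this ⊢
  linarith

lemma block (v : E) (hv : ‖v‖ = 1) : ∃ s : ℝ, 0 ≤ s ∧ Y + s • v ∈ D ∧ Y + s • v ≠ p ∧
    t < u (Y + s • v) := by
  have H0 := H_pos
  have H1 := H_le
  have n := nsq v
  rw [hv] at n
  have a0 : ∀ s : ℝ, (Y + s • v) 0 = s * v 0 := fun s => by simp [Y]
  have a1 : ∀ s : ℝ, (Y + s • v) 1 = s * v 1 := fun s => by simp [Y]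
  have a2 : ∀ s : ℝ, (Y + s • v) 2 = θ + s * v 2 := fun s => by simp [Y]
  by_cases hc : 0 < v 0 ∧ v 1 ^ 2 + v 2 ^ 2 ≤ (v 0 / 10) ^ 2
  · obtain ⟨v0, hc⟩ := hc
    have b1 : |v 1| ≤ v 0 / 10 := abs_le_of_sq_le_sq (by nlinarith [sq_nonneg (v 2)]) (by positivity)
    have b2 : |v 2| ≤ v 0 / 10 := abs_le_of_sq_le_sq (by nlinarith [sq_nonneg (v 1)]) (by positivity)
    have b3 : |v 1 / v 0| ≤ 1 / 10 := by
      rw [abs_div, abs_of_pos v0, div_le_iff₀ v0]; linarith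
    have b4 : |v 2 / v 0| ≤ 1 / 10 := by
      rw [abs_div, abs_of_pos v0, div_le_iff₀ v0]; linarith
    have key : ∀ k : ℝ, 1 ≤ k → k ≤ 2 → θ / 3 ≤ |θ + k * (v 2 / v 0)| → ∃ s : ℝ, 0 ≤ s ∧
        Y + s • v ∈ D ∧ Y + s • v ≠ p ∧ t < u (Y + s • v) := fun k k1 k2 hk => by
      have e0 : k / v 0 * v 0 = k := by field_simp
      have e1 : k / v 0 * v 1 = k * (v 1 / v 0) := by ring
      have e2 : k / v 0 * v 2 = k * (v 2 / v 0) := by ring
      refine ⟨k / v 0, by positivity, gate (by rwa [a0, e0]) (by rwa [a0, e0]) ?_ ?_ (by rwa [a2, e2])⟩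
      · rw [a0, a1, e0, e1, abs_mul, abs_of_pos (by linarith : 0 < k)]
        nlinarith
      · rw [a2, e2, abs_le]
        obtain ⟨c1, c2⟩ := abs_le.1 b4
        constructor <;> nlinarith
    by_cases h1 : θ / 3 ≤ |θ + 1 * (v 2 / v 0)|
    · exact key 1 le_rfl one_le_two h1
    · refine key 2 one_le_two le_rfl ?_
      obtain ⟨c1, c2⟩ := abs_lt.1 (not_le.1 h1)
      exact le_trans (by linarith) (neg_le_abs _)
  · have b1 : v 0 ≤ 0.996 := by
      by_contra hn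
      exact hc ⟨by linarith, by nlinarith⟩
    have b2 : ‖(1 / 1000 : ℝ) • v‖ = 1 / 1000 := by rw [norm_smul, hv]; norm_num
    have b3 := norm_add_le Y ((1 / 1000 : ℝ) • v)
    have b4 := norm_sub_le (Y + (1 / 1000 : ℝ) • v) Y
    rw [add_sub_cancel_left, b2, nY] at b4
    rw [b2, nY] at b3
    have b5 : 3 / 10 ^ 6 ≤ q (Y + (1 / 1000 : ℝ) • v) := by rw [q, a0]; linarith
    have b6 := le_n (Y + (1 / 1000 : ℝ) • v)
    have b7 := ℓ_le (by norm_num) b5
    have b8 := ℓ_nonneg (lt_of_lt_of_le (by norm_num) b5) (by linarith)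
    refine ⟨1 / 1000, by norm_num, good (a := 13.002) (lt_of_lt_of_le (by norm_num) b5)
      (by linarith) (by norm_num) ?_ ?_⟩
    · rw [a1]
      nlinarith [sq_nonneg (v 0), sq_nonneg (v 2), sq_nonneg (v 1 - 1)]
    · have : ((Y + (1 / 1000 : ℝ) • v) 0 + 1) * ℓ (Y + (1 / 1000 : ℝ) • v) ≤
          2 * (300 / (3 / 10 ^ 6)) := by
        gcongr; rw [a0]; linarith
      norm_num at this ⊢
      linarith

lemma D_conn : IsConnected D := by
  suffices D ⊆ connectedComponentIn D p by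
    rw [this.antisymm (connectedComponentIn_subset D p)]
    exact isConnected_connectedComponentIn_iff.2 p_mem
  have o0 : IsOpen (connectedComponentIn D p) := D_open.connectedComponentIn
  have o1 : IsOpen (D \ connectedComponentIn D p) := isOpen_iff_mem_nhds.2 fun x hx =>
    mem_of_superset ((D_open.connectedComponentIn (x := x)).mem_nhds
      (mem_connectedComponentIn hx.1)) fun y hy => ⟨connectedComponentIn_subset _ _ hy, fun h =>
        hx.2 (by rw [connectedComponentIn_eq h, ← connectedComponentIn_eq hy]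
                 exact mem_connectedComponentIn hx.1)⟩
  have hp : ∀ x ∈ D \ connectedComponentIn D p, x ≠ p := fun x hx e =>
    hx.2 (by rw [e]; exact mem_connectedComponentIn p_mem)
  have hu : HarmonicOnNhd u (D \ connectedComponentIn D p) :=
    harm_u.mono fun x hx => ⟨hx.1.2.1, hp x hx⟩
  have key := minp o1 (D_bdd.subset fun x hx => hx.1) (v := fun _ => 0) (w := u)
    lowerSemicontinuousOn_const hu.continuousOn (by simp) (fun z hz ε hε m e h => ?_)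
    fun b hb η hη => ?_
  · intro x hx
    by_contra hn
    have := key x ⟨hx, hn⟩
    exact absurd ((u_pos (hp x ⟨hx, hn⟩)).2 hx.2.2) (not_lt.2 (by exact_mod_cast this))
  · refine notouch (hu z hz) hε (mem_of_superset (o1.mem_nhds hz) fun x hx => ?_)
    have := (h x hx).trans_eq e
    rw [EReal.coe_le_coe_iff] at this
    exact show u x + _ ≤ _ by linarith
  · rw [o1.frontier_eq] at hb
    have h1 : b ∉ D := fun h => by
      obtain ⟨x, x1, x2⟩ := _root_.mem_closure_iff.1 hb.1 _ o0 (by_contra fun h' => hb.2 ⟨h, h'⟩)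
      exact x2.2 x1
    refine ((bd_D (closure_mono (fun x hx => hx.1) hb.1) h1 hη).filter_mono
      (nhdsWithin_mono _ fun x hx => hx.1)).mono fun x hx => ?_
    exact_mod_cast sub_nonpos.2 hx

end Pool.Agent.H.MP_770c06_an
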